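import Pool.Agent.H20.OPF.Exact

set_option autoImplicit false
set_option linter.unusedSectionVars false

/-!
# Full Ottaviani-Paoletti: the frozen form

`frozen_of` : the statement `S00287` from `Known d` for all `d ≥ 1`.
`koszul_of` : the same for all coefficient degrees `m` with `2 d ≤ m` and `i + d + 3 ≤ 2 m`.
-/

open MvPolynomial

namespace Pool.Agent.H38.OPM

open Pool.Agent.H27.OP Pool.Agent.H20.OPF

/-- exactness in coordinates, for every basis of the forms of degree `d` -/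
theorem koszul_of {d : ℕ} (h : Known d) (n : ℕ) (N : ℕ) (φ : Fin N → MvPolynomial (Fin n) ℂ)
    (hφ : ∀ i, φ i ∈ homogeneousSubmodule (Fin n) ℂ d)
    (hli : LinearIndependent ℂ φ)
    (hsp : Submodule.span ℂ (Set.range φ) = homogeneousSubmodule (Fin n) ℂ d)
    (i m : ℕ) (hm : 2 * d ≤ m) (him : i + d + 3 ≤ 2 * m)
    (f : Finset (Fin N) → MvPolynomial (Fin n) ℂ)
    (hf : ∀ I, f I ∈ homogeneousSubmodule (Fin n) ℂ m)
    (hf0 : ∀ I : Finset (Fin N), I.card ≠ i → f I = 0)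
    (hz : ∀ J : Finset (Fin N), J.card + 1 = i →
      ∑ b ∈ Jᶜ, (-1 : MvPolynomial (Fin n) ℂ) ^ (J.filter (fun c => c < b)).card
        * φ b * f (insert b J) = 0) :
    ∃ g : Finset (Fin N) → MvPolynomial (Fin n) ℂ,
      (∀ I, g I ∈ homogeneousSubmodule (Fin n) ℂ (m - d)) ∧
      (∀ I : Finset (Fin N), I.card ≠ i + 1 → g I = 0) ∧
      ∀ I : Finset (Fin N), I.card = i →
        f I = ∑ b ∈ Iᶜ, (-1 : MvPolynomial (Fin n) ℂ) ^ (I.filter (fun c => c < b)).card
          * φ b * g (insert b I) := by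
  obtain ⟨B, rfl⟩ := exists_Bs φ hφ hli hsp
  have hdel : ∀ (h : Finset (Fin N) → MvPolynomial (Fin n) ℂ) (I : Finset (Fin N)),
      (SK B).del h I
        = ∑ b ∈ Iᶜ, (-1 : MvPolynomial (Fin n) ℂ) ^ (I.filter (fun c => c < b)).card
          * B.φ b * h (insert b I) := by
    intro h I
    have h1 : Iᶜ = Finset.univ.filter (fun b => ¬ b ∈ I) := by
      ext b; simp
    rw [SK_del, h1, Finset.sum_filter]
    refine Finset.sum_congr rfl fun b _ => ?_
    rw [aJ_apply]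
    by_cases hb : b ∈ I
    · rw [if_pos hb, if_neg (not_not.mpr hb), mul_zero]
    · rw [if_neg hb, if_pos hb, sgn, smul_eq_C_mul, map_pow, map_neg, C_1]
      ring
  have hfG : f ∈ GK (Fin n) ℂ N i m := fun I =>
    ⟨(mem_homogeneousSubmodule _ _).mp (hf I), fun hI => hf0 I hI⟩
  have hfz : (SK B).del f = 0 := by
    funext J
    rw [hdel]
    by_cases hJ : J.card + 1 = i
    · exact hz J hJ
    · refine Finset.sum_eq_zero fun b hb => ?_
      rw [hf0 (insert b J) (by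
        rw [Finset.card_insert_of_notMem (Finset.mem_compl.mp hb)]; exact hJ), mul_zero]
  obtain ⟨ω0, hω0⟩ := h n i m hm him N B f hfG hfz
  have h1 : (SK B).del ω0 ∈ (AK B).G i (m - d + d) := by
    rw [hω0, Nat.sub_add_cancel (by omega)]
    exact hfG
  obtain ⟨ω, hω, hωd⟩ := (AK B).lift h1
  refine ⟨ω, fun I => (mem_homogeneousSubmodule _ _).mpr (hω I).1, fun I hI => (hω I).2 hI, ?_⟩
  intro I _
  rw [← hdel, hωd, hω0]

/-- the frozen statement `S00287` -/
theorem frozen_of (h : ∀ d, 1 ≤ d → Known d) :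
    ∀ n d p : ℕ, 1 ≤ n → 1 ≤ d → p + 2 < 3 * d →
    ∀ N : ℕ, ∀ φ : Fin N → MvPolynomial (Fin (n + 1)) ℂ,
      (∀ k, φ k ∈ MvPolynomial.homogeneousSubmodule (Fin (n + 1)) ℂ d) →
      LinearIndependent ℂ φ →
      Submodule.span ℂ (Set.range φ) = MvPolynomial.homogeneousSubmodule (Fin (n + 1)) ℂ d →
      ∀ i : ℕ, i ≤ p → ∀ q : ℕ, 2 ≤ q →
      ∀ f : Finset (Fin N) → MvPolynomial (Fin (n + 1)) ℂ,
        (∀ I, f I ∈ MvPolynomial.homogeneousSubmodule (Fin (n + 1)) ℂ (q * d)) →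
        (∀ I : Finset (Fin N), I.card ≠ i → f I = 0) →
        (∀ J : Finset (Fin N), J.card + 1 = i →
          ∑ b ∈ Jᶜ, (-1 : MvPolynomial (Fin (n + 1)) ℂ) ^ (J.filter (fun c => c < b)).card
            * φ b * f (insert b J) = 0) →
        ∃ g : Finset (Fin N) → MvPolynomial (Fin (n + 1)) ℂ,
          (∀ I, g I ∈ MvPolynomial.homogeneousSubmodule (Fin (n + 1)) ℂ ((q - 1) * d)) ∧
          (∀ I : Finset (Fin N), I.card ≠ i + 1 → g I = 0) ∧
          ∀ I : Finset (Fin N), I.card = i →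
            f I = ∑ b ∈ Iᶜ, (-1 : MvPolynomial (Fin (n + 1)) ℂ) ^ (I.filter (fun c => c < b)).card
              * φ b * g (insert b I) := by
  intro n d p _ hd hp N φ hφ hli hsp i hi q hq f hf hf0 hz
  have h2 : 2 * d ≤ q * d := Nat.mul_le_mul_right d hq
  have h3 : (q - 1) * d = q * d - d := by rw [Nat.sub_mul, one_mul]
  rw [h3]
  exact koszul_of (h d hd) (n + 1) N φ hφ hli hsp i (q * d) h2 (by omega) f hf hf0 hz

end Pool.Agent.H38.OPM
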